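import Pool.Agent.Helper45.CF.GoalsD

/-!
# Packet CF2-BOXZ (project CAR FIELDS stage 2, MP_d97caa_an): boxes
-/

open scoped ComplexOrder Topology
open TopologicalSpace Filter

namespace Pool.Agent.Helper96.CF2.BOXZ

open Pool.Agent.Helper34.CAR Pool.Agent.Helper39.CR Pool.Agent.Helper45.CF

noncomputable section

/-- the zero algebra -/
theorem zero_of_sub (T : Theory) (A : Type) [NonUnitalCStarAlgebra A] [SeparableSpace A]
    [Subsingleton A] : T.Zero A := by
  intro i x
  have h1 : NonUnitalStarAlgHom.id ℂ A = (0 : ℂ →⋆ₙₐ[ℂ] A).comp (0 : A →⋆ₙₐ[ℂ] ℂ) :=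
    DFunLike.ext _ _ fun a => Subsingleton.elim _ _
  rw [← T.map_id i A x, h1, T.map_comp, T.point i (T.map i (0 : ℂ →⋆ₙₐ[ℂ] A) x), map_zero]

theorem cmb_mem (t x y : unitInterval) :
    (1 - (t : ℝ)) * (x : ℝ) + (t : ℝ) * (y : ℝ) ∈ Set.Icc (0 : ℝ) 1 := by
  have ht := t.2
  have hx := x.2
  have hy := y.2
  rw [Set.mem_Icc] at *
  constructor
  · have h1 : 0 ≤ (1 - (t : ℝ)) * (x : ℝ) := mul_nonneg (by linarith [ht.2]) hx.1
    have h2 : 0 ≤ (t : ℝ) * (y : ℝ) := mul_nonneg ht.1 hy.1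
    linarith
  · have h1 : (1 - (t : ℝ)) * (x : ℝ) ≤ (1 - (t : ℝ)) * 1 :=
      mul_le_mul_of_nonneg_left hx.2 (by linarith [ht.2])
    have h2 : (t : ℝ) * (y : ℝ) ≤ (t : ℝ) * 1 := mul_le_mul_of_nonneg_left hy.2 ht.1
    linarith

/-- the point `(1 - t) x + t y` of the unit interval. -/
def cmb (t x y : unitInterval) : unitInterval :=
  ⟨(1 - (t : ℝ)) * (x : ℝ) + (t : ℝ) * (y : ℝ), cmb_mem t x y⟩

theorem cmb_ge {t x y : unitInterval} (h : x ≤ y) : x ≤ cmb t x y := by
  have ht := t.2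
  have h1 : (x : ℝ) ≤ (y : ℝ) := h
  change (x : ℝ) ≤ (1 - (t : ℝ)) * (x : ℝ) + (t : ℝ) * (y : ℝ)
  nlinarith [ht.1, ht.2, mul_nonneg ht.1 (sub_nonneg.2 h1)]

theorem cmb_le {t x y : unitInterval} (h : x ≤ y) : cmb t x y ≤ y := by
  have ht := t.2
  have h1 : (x : ℝ) ≤ (y : ℝ) := h
  change (1 - (t : ℝ)) * (x : ℝ) + (t : ℝ) * (y : ℝ) ≤ (y : ℝ)
  nlinarith [ht.1, ht.2, mul_nonneg (sub_nonneg.2 ht.2) (sub_nonneg.2 h1)]

/-- **BOXZ** -/
theorem t (hCON : S_CON) : S_BOXZ := by
  intro T a b _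
  rcases (Set.Icc a b).eq_empty_or_nonempty with he | hne
  · have : IsEmpty ↥(Set.Icc a b) := by
      rw [he]
      infer_instance
    have : Subsingleton C(↥(Set.Icc a b), ℂ) :=
      ⟨fun f g => by ext x; exact isEmptyElim x⟩
    exact zero_of_sub T _
  · have hab : a ≤ b := Set.nonempty_Icc.1 hne
    let c : ↥(Set.Icc a b) := ⟨a, le_refl a, hab⟩
    let H : C(unitInterval × ↥(Set.Icc a b), ↥(Set.Icc a b)) :=
      { toFun := fun p => ⟨fun i => cmb p.1 (a i) (p.2.1 i),
          fun i => cmb_ge (p.2.2.1 i), fun i => (cmb_le (p.2.2.1 i)).trans (p.2.2.2 i)⟩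
        continuous_toFun := by
          refine Continuous.subtype_mk ?_ _
          refine continuous_pi fun i => ?_
          refine Continuous.subtype_mk ?_ _
          have h1 : Continuous fun p : unitInterval × ↥(Set.Icc a b) => ((p.1 : unitInterval) : ℝ) :=
            continuous_subtype_val.comp continuous_fst
          have h2 : Continuous fun p : unitInterval × ↥(Set.Icc a b) =>
              (((p.2 : ℕ → unitInterval) i : unitInterval) : ℝ) :=
            continuous_subtype_val.comp ((continuous_apply i).comp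
              (continuous_subtype_val.comp continuous_snd))
          exact ((continuous_const.sub h1).mul continuous_const).add (h1.mul h2) }
    refine hCON T ↥(Set.Icc a b) H c ?_ ?_
    · intro x
      apply Subtype.ext
      funext i
      apply Subtype.ext
      change (1 - (1 : ℝ)) * ((a i : unitInterval) : ℝ) + (1 : ℝ) * ((x.1 i : unitInterval) : ℝ) = _
      rw [sub_self, zero_mul, zero_add, one_mul]
    · intro x
      apply Subtype.ext
      funext i
      apply Subtype.ext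
      change (1 - (0 : ℝ)) * ((a i : unitInterval) : ℝ) + (0 : ℝ) * ((x.1 i : unitInterval) : ℝ) = _
      rw [sub_zero, zero_mul, add_zero, one_mul]

end

end Pool.Agent.Helper96.CF2.BOXZ
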